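import Mathlib
import Pool.Agent.H26.ZStar

set_option autoImplicit false

open Pool.Agent.H26.ZStar Filter Topology

namespace Pool.Agent.Results.MP_6f16c7_an.Proof

def IsExtension (J A C : Type) [NonUnitalCStarAlgebra J] [NonUnitalCStarAlgebra A]
    [NonUnitalCStarAlgebra C] : Prop :=
  ∃ (i : J →⋆ₙₐ[ℂ] A) (p : A →⋆ₙₐ[ℂ] C), Function.Injective i ∧ Function.Surjective p ∧
    ∀ a : A, p a = 0 ↔ ∃ j : J, i j = a

theorem full {C : Type} [NonUnitalCStarAlgebra C] (hC : IsSimple C) {w : C} (hw : w ≠ 0)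
    (c : C) : c ∈ closure (Submodule.span ℂ (Set.range fun q : C × C => q.1 * w * q.2) : Set C) := by
  set S := Submodule.span ℂ (Set.range fun q : C × C => q.1 * w * q.2) with hS
  have hm : ∀ y : C, ∀ x ∈ S, y * x ∈ S ∧ x * y ∈ S := by
    intro y x hx
    induction hx using Submodule.span_induction with
    | mem x hx =>
      obtain ⟨q, rfl⟩ := hx
      exact ⟨Submodule.subset_span ⟨(y * q.1, q.2), by simp [mul_assoc]⟩,
        Submodule.subset_span ⟨(q.1, q.2 * y), by simp [mul_assoc]⟩⟩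
    | zero => simp
    | add a b _ _ ha hb => rw [mul_add, add_mul]; exact ⟨S.add_mem ha.1 hb.1, S.add_mem ha.2 hb.2⟩
    | smul r a _ ha =>
      rw [mul_smul_comm, smul_mul_assoc]; exact ⟨S.smul_mem r ha.1, S.smul_mem r ha.2⟩
  rcases hC.2 S.topologicalClosure S.isClosed_topologicalClosure (fun x hx y =>
    ⟨map_mem_closure (f := fun x => y * x) (by fun_prop) hx fun x hx => (hm y x hx).1,
      map_mem_closure (f := fun x => x * y) (by fun_prop) hx fun x hx => (hm y x hx).2⟩) with h | h
  · exfalso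
    have h1 : star w * w * (star w * w) ∈ S.topologicalClosure :=
      S.le_topologicalClosure (Submodule.subset_span ⟨(star w, star w * w), rfl⟩)
    rw [h, Submodule.mem_bot] at h1
    have h2 : star (star w * w) * (star w * w) = 0 := by simpa using h1
    exact hw (CStarRing.star_mul_self_eq_zero_iff _ |>.1
      (CStarRing.star_mul_self_eq_zero_iff _ |>.1 h2))
  · have : c ∈ S.topologicalClosure := by rw [h]; trivial
    exact this

theorem result (J A C : Type) [NonUnitalCStarAlgebra J] [NonUnitalCStarAlgebra A]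
    [NonUnitalCStarAlgebra C] (h : IsExtension J A C) (_hJ : IsSimple J) (hJ : IsZStar J)
    (hC : IsSimple C) (hC' : IsZStar C) : IsZStar A := by
  obtain ⟨i, p, hi, hp, hk⟩ := h
  intro a ha
  by_contra hn
  have nz : ∀ y : A, y * a = 0 → y = 0 := fun y hy => by
    by_contra h0
    exact hn ⟨y, h0, Or.inr hy⟩
  have hpa : Pos (p a) := by
    obtain ⟨z, rfl⟩ := ha
    exact ⟨p z, by simp [map_star]⟩
  obtain ⟨w, hw, hwa⟩ := left_ann hpa (hC' _ hpa)
  obtain ⟨y, rfl⟩ := hp w
  let P : A →L[ℂ] C := (p : A →ₗ[ℂ] C).mkContinuous 1 fun x => by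
    simpa using NonUnitalStarAlgHom.norm_apply_le p x
  obtain ⟨K, hK, hK2⟩ := P.exists_preimage_norm_le hp
  let g : (A × A) ⊕ J → A := Sum.elim (fun q => q.1 * y * q.2) i
  have hmem : a ∈ closure (Submodule.span ℂ (Set.range g) : Set A) := by
    rw [Metric.mem_closure_iff]
    intro ε hε
    obtain ⟨c, hc, hd⟩ := Metric.mem_closure_iff.1 (full hC hw (p a)) (ε / K) (by positivity)
    have : ∃ s ∈ Submodule.span ℂ (Set.range g), p s = c := by
      clear hd
      induction hc using Submodule.span_induction with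
      | mem x hx =>
        obtain ⟨⟨u, v⟩, rfl⟩ := hx
        obtain ⟨u, rfl⟩ := hp u
        obtain ⟨v, rfl⟩ := hp v
        exact ⟨u * y * v, Submodule.subset_span ⟨Sum.inl (u, v), rfl⟩, by simp⟩
      | zero => exact ⟨0, Submodule.zero_mem _, map_zero p⟩
      | add a b _ _ ha hb =>
        obtain ⟨s, hs, rfl⟩ := ha
        obtain ⟨t, ht, rfl⟩ := hb
        exact ⟨s + t, Submodule.add_mem _ hs ht, map_add p s t⟩
      | smul r a _ ha =>
        obtain ⟨s, hs, rfl⟩ := ha
        exact ⟨r • s, Submodule.smul_mem _ r hs, map_smul p r s⟩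
    obtain ⟨s, hs, rfl⟩ := this
    obtain ⟨d, hd1, hd2⟩ := hK2 (p a - p s)
    have hd1' : p d = p a - p s := hd1
    obtain ⟨j, hj⟩ := (hk (a - s - d)).1 (by rw [map_sub, map_sub, hd1', sub_self])
    refine ⟨s + i j, Submodule.add_mem _ hs (Submodule.subset_span ⟨Sum.inr j, rfl⟩), ?_⟩
    rw [dist_eq_norm] at hd ⊢
    rw [hj, show a - (s + (a - s - d)) = d by abel]
    rw [lt_div_iff₀ hK] at hd
    linarith
  obtain ⟨s, hs⟩ := countable_closure g hmem
  have ex : ∀ u : A, ∃ j : J, i j = u * y * a := fun u =>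
    (hk _).1 (by rw [map_mul, map_mul, mul_assoc, hwa, mul_zero])
  choose r hr using ex
  obtain ⟨z, hz, h⟩ := seq_ann hJ fun n => Sum.elim (fun q : A × A => r q.1) id (s n)
  have hle : Submodule.span ℂ (Set.range (g ∘ s)) ≤
      LinearMap.ker (ContinuousLinearMap.mul ℂ A (i z)).toLinearMap := by
    rw [Submodule.span_le]
    rintro _ ⟨n, rfl⟩
    have h1 := congrArg i (h n)
    rw [map_mul, map_zero] at h1
    show i z * g (s n) = 0
    rcases hsn : s n with q | j
    · rw [hsn] at h1
      have h2 : i z * (q.1 * y) = 0 := nz _ (by rw [mul_assoc, ← hr]; exact h1)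
      show i z * (q.1 * y * q.2) = 0
      rw [← mul_assoc, h2, zero_mul]
    · rw [hsn] at h1; exact h1
  have h3 : i z * a = 0 := closure_minimal hle (ContinuousLinearMap.mul ℂ A (i z)).isClosed_ker hs
  exact hz (hi ((nz _ h3).trans (map_zero i).symm))

end Pool.Agent.Results.MP_6f16c7_an.Proof
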